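import Pool.Agent.T6.H21.MP.Per

/-!
# The reproducing property for very general members of good families

Helper file.
-/

set_option autoImplicit false
set_option linter.unusedSectionVars false

namespace Pool.Agent.T6.H21.MP

open Matrix Module Pool.Agent.H204R3.CM Pool.Agent.H194R3.CM Pool.Agent.W437.HC Pool.Agent.W437.HD Pool.Agent.W437.HP
  Pool.Agent.W437.HR Pool.Agent.TH131.GHC Pool.Agent.TH504.VY Pool.Agent.TH504.CB Pool.Agent.TH125.Small
  Pool.Agent.Y91.PS Pool.Agent.Y91.Sharp Pool.Agent.X311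

theorem exists_repro {ι : Type} [Fintype ι] {U : Set ℂ} (hU : IsOpen U) (hc : IsPreconnected U)
    {g : ι → ℕ} (Z : ∀ i, ℂ → Matrix (Fin (g i)) (Fin (g i)) ℂ)
    (h : ∀ i, IsGoodFamily U (Z i)) (hnc : ∀ i, ∃ s ∈ U, ∃ t ∈ U, Z i s ≠ Z i t)
    (K : Subfield ℂ) (hK : (K : Set ℂ).Countable) :
    ∃ E : Set ℂ, E.Countable ∧ ∀ t ∈ U, t ∉ E → ∀ (v : ℕ) (V : Coh v),
      (IsOfCMType V ∨ HasFiltrationOver K V) → ∀ (m : ℕ) (c : Fin m → ι),
        Repro (perFam (fun i => Z i t) c) V := by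
  classical
  choose E hE hEt using fun i => exists_good hU hc (h i) (hnc i) K hK
  refine ⟨⋃ i, E i, Set.countable_iUnion hE, fun t ht htE v V hV m c => ?_⟩
  rw [Set.mem_iUnion, not_exists] at htE
  refine repro_of_free (free_of (Y := fun i => Z i t) (fun i => ((h i).2.1 t ht).1) (fun i => ((h i).2.1 t ht).2)
    (fun i => (hEt i t ht (htE i)).2.1) (fun i => (hEt i t ht (htE i)).1) V (hV.imp_right fun hV i => ?_) c)
  obtain ⟨a, b, hab⟩ := (hEt i t ht (htE i)).2.2
  obtain ⟨δ, hδK, hδ⟩ := exists_derivationK (K := K) (v := fun _ : Unit => Z i t a b)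
    ((algebraicIndependent_unique_type_iff).2 hab) (fun _ => 1)
  refine ⟨δ, raises_of_filtration hV δ fun x hx => hδK ⟨x, hx⟩, fun h0 => ?_⟩
  have h1 := congrFun (congrFun h0 a) b
  rw [Matrix.map_apply, hδ ()] at h1
  exact one_ne_zero h1

end Pool.Agent.T6.H21.MP
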