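import Pool.Agent.X311.GhcPeriods

/-!
# The reproducing property for Hodge classes on the product of a complex torus and a noncommutative variety

Helper file. `Repro per V` says that the Hodge classes on the product of the complex torus with the period map `per` and the
(noncommutative) variety with the cohomology `V` are determined by their integrals against products of divisor classes on the
torus, and that these integrals are Hodge classes.
-/

set_option autoImplicit false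
set_option linter.unusedSectionVars false

namespace Pool.Agent.T6.H21.MP

open Matrix Module Pool.Agent.H204R3.CM Pool.Agent.W437.HC Pool.Agent.W437.HD Pool.Agent.W437.HP
  Pool.Agent.W437.HQ Pool.Agent.W437.HR Pool.Agent.TH131.GHC Pool.Agent.TH504.VY
  Pool.Agent.TH504.VL Pool.Agent.TH504.CB Pool.Agent.TH125 Pool.Agent.Y91.PS Pool.Agent.X311

noncomputable section

section general

variable {W T : Type} [AddCommGroup W] [Module ℚ W] [AddCommGroup T] [Module ℂ T]

/-- The Hodge classes on the product have Hodge classes as integrals, and are determined by their integrals. -/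
structure Repro (per : W →+ T) {v : ℕ} (V : Coh v) : Prop where
  integral : ∀ F, IsHodgeOnProduct per V F → ∀ (k j : ℕ) (e : Basis (Fin k ⊕ Fin j) ℚ W) (β : W [⋀^Fin j]→ₗ[ℚ] ℚ),
    fibreIntegral e F β ∈ HY V
  mem : ∀ F, IsHodgeOnProduct per V F → ∀ P : Submodule ℚ (HAZ W v),
    (∀ (k j : ℕ) (e : Basis (Fin k ⊕ Fin j) ℚ W), ∀ f ∈ divisorSpan per k, ∀ β ∈ divisorSpan per j,
      cross f (fibreIntegral e F β) ∈ P) → F ∈ P

theorem repro_of_free {n : ℕ} {g : Fin n → ℕ} {Z : ∀ i, Matrix (Fin (g i)) (Fin (g i)) ℂ} {v : ℕ} {V : Coh v}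
    (h : IsFree Z V) : Repro (perProd Z) V where
  integral _ hF _ _ e β := h.integral_mem hF e β
  mem _ hF _ hP := h.mem_of_integrals hF hP

variable {W' T' : Type} [AddCommGroup W'] [Module ℚ W'] [AddCommGroup T'] [Module ℂ T']

theorem fibreIntegral_comp (Φ : W ≃ₗ[ℚ] W') {v k j : ℕ} (e : Basis (Fin k ⊕ Fin j) ℚ W) (F : HAZ W v)
    (β : W [⋀^Fin j]→ₗ[ℚ] ℚ) :
    fibreIntegral (e.map Φ) (compH (Φ.symm : W' →ₗ[ℚ] W) F) (β.compLinearMap (Φ.symm : W' →ₗ[ℚ] W)) =
      fibreIntegral e F β := by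
  unfold fibreIntegral
  refine Finset.sum_congr rfl fun σ _ => ?_
  congr 1
  have h1 : (β.compLinearMap (Φ.symm : W' →ₗ[ℚ] W)) (fun l => (e.map Φ) (σ (Sum.inr l))) =
      β (fun l => e (σ (Sum.inr l))) := by
    rw [AlternatingMap.compLinearMap_apply]
    congr 1
    funext l
    simp
  have h2 : compH (Φ.symm : W' →ₗ[ℚ] W) F k (fun l => (e.map Φ) (σ (Sum.inl l))) =
      F k (fun l => e (σ (Sum.inl l))) := by
    unfold compH
    rw [AlternatingMap.compLinearMap_apply]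
    congr 1
    funext l
    simp
  rw [h1, h2]

theorem compH_cross (Φ : W →ₗ[ℚ] W') {v k : ℕ} (f : W' [⋀^Fin k]→ₗ[ℚ] ℚ) (x : Fin v → ℚ) :
    compH Φ (cross f x) = cross (f.compLinearMap Φ) x := by
  funext k'
  by_cases hk : k' = k
  · subst hk
    unfold compH cross
    rw [Pi.single_eq_same, Pi.single_eq_same]
    ext w
    rfl
  · unfold compH cross
    rw [Pi.single_eq_of_ne hk, Pi.single_eq_of_ne hk]
    ext w
    rfl

/-- The reproducing property is invariant under isogenies. -/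
theorem repro_iso {per : W →+ T} {per' : W' →+ T'} (Φ : W ≃ₗ[ℚ] W') (Ψ : T →ₗ[ℂ] T')
    (h : ∀ w, Ψ (per w) = per' (Φ w)) (Ψ' : T' →ₗ[ℂ] T) (h' : ∀ w, Ψ' (per' w) = per (Φ.symm w)) {v : ℕ} {V : Coh v}
    (H : Repro per' V) : Repro per V := by
  refine ⟨fun F hF k j e β => ?_, fun F hF P hP => ?_⟩
  · have h1 := H.integral _ (isHodgeOnProduct_comp (Φ.symm : W' →ₗ[ℚ] W) Ψ' h' V hF) k j (e.map Φ)
      (β.compLinearMap (Φ.symm : W' →ₗ[ℚ] W))
    rwa [fibreIntegral_comp] at h1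
  · have hinv : compH (Φ : W →ₗ[ℚ] W') (compH (Φ.symm : W' →ₗ[ℚ] W) F) = F := by
      funext k
      ext w : 1
      unfold compH
      rw [AlternatingMap.compLinearMap_apply, AlternatingMap.compLinearMap_apply]
      congr 1
      funext l
      exact Φ.symm_apply_apply (w l)
    have h1 : compH (Φ.symm : W' →ₗ[ℚ] W) F ∈ P.comap (compHL (Φ : W →ₗ[ℚ] W') v) := by
      refine H.mem _ (isHodgeOnProduct_comp (Φ.symm : W' →ₗ[ℚ] W) Ψ' h' V hF) _ fun k j e f hf β hβ => ?_
      rw [Submodule.mem_comap]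
      change compH (Φ : W →ₗ[ℚ] W') (cross f _) ∈ P
      rw [compH_cross]
      have h2 := fibreIntegral_comp Φ (e.map Φ.symm) F (β.compLinearMap (Φ : W →ₗ[ℚ] W'))
      have h3 : (e.map Φ.symm).map Φ = e := by
        ext i
        simp
      have h4 : (β.compLinearMap (Φ : W →ₗ[ℚ] W')).compLinearMap (Φ.symm : W' →ₗ[ℚ] W) = β := by
        ext w
        rw [AlternatingMap.compLinearMap_apply, AlternatingMap.compLinearMap_apply]
        congr 1
        funext l
        exact Φ.apply_symm_apply (w l)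
      rw [h3, h4] at h2
      rw [h2]
      exact hP k j _ _ (divisorSpan_comp (Φ : W →ₗ[ℚ] W') Ψ h hf) _ (divisorSpan_comp (Φ : W →ₗ[ℚ] W') Ψ h hβ)
    rw [Submodule.mem_comap] at h1
    change compH (Φ : W →ₗ[ℚ] W') (compH (Φ.symm : W' →ₗ[ℚ] W) F) ∈ P at h1
    rwa [hinv] at h1

variable {per : W →+ T} {v : ℕ} {V : Coh v}

theorem cross_zero {k : ℕ} (f : W [⋀^Fin k]→ₗ[ℚ] ℚ) : cross f (0 : Fin v → ℚ) = 0 := by
  have h1 : (LinearMap.toSpanSingleton ℚ (Fin v → ℚ) 0).compAlternatingMap f = 0 := by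
    refine AlternatingMap.ext fun w => ?_
    simp
  unfold cross
  rw [h1, Pi.single_zero]

/-- the constant function `1`, the unit class of the torus -/
def oneF (W : Type) [AddCommGroup W] [Module ℚ W] : W [⋀^Fin 0]→ₗ[ℚ] ℚ := AlternatingMap.constOfIsEmpty ℚ W (Fin 0) 1

theorem oneF_apply (w : Fin 0 → W) : oneF W w = 1 := rfl

theorem oneF_mem : oneF W ∈ divisorSpan per 0 := by
  refine Submodule.subset_span ⟨0, Equiv.equivOfIsEmpty _ _, fun l => l.elim0, fun l => l.elim0, fun w => ?_⟩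
  rw [oneF_apply]
  simp

theorem cross_oneF (x : Fin v → ℚ) : cross (oneF W) x 0 (fun l => l.elim0) = x := by
  unfold cross
  rw [Pi.single_eq_same]
  change (LinearMap.toSpanSingleton ℚ (Fin v → ℚ) x) (oneF W _) = x
  rw [oneF_apply]
  simp

/-- The product of the unit class of the torus and a Hodge class is a Hodge class. -/
theorem hodge_one {x : Fin v → ℚ} (hx : IsHodgeOn V x) : IsHodgeOnProduct per V (cross (oneF W) x) := by
  refine ⟨Pi.single 0 (AlternatingMap.constOfIsEmpty ℝ T (Fin 0) (cv x)), fun k w => ?_, fun k u => ?_⟩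
  · by_cases hk : k = 0
    · subst hk
      unfold cross
      rw [Pi.single_eq_same, Pi.single_eq_same]
      change cv x = cv ((LinearMap.toSpanSingleton ℚ (Fin v → ℚ) x) (oneF W w))
      rw [oneF_apply]
      simp
    · unfold cross
      rw [Pi.single_eq_of_ne hk, Pi.single_eq_of_ne hk]
      funext b
      simp [Pool.Agent.TH131.GHC.cv]
  · by_cases hk : k = 0
    · subst hk
      rw [Pi.single_eq_same]
      change (-Complex.I) • ∑ l : Fin 0, _ + V.z *ᵥ cv x = _
      rw [hx]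
      simp
    · rw [Pi.single_eq_of_ne hk]
      simp

/-- All Hodge classes on the product are sums of products. -/
theorem Repro.mem_cross (h : Repro per V) {F : HAZ W v} (hF : IsHodgeOnProduct per V F) : F ∈ crossSpan per V :=
  h.mem F hF _ fun k j e f hf β _ => Submodule.subset_span ⟨k, f, _, hf, h.integral F hF k j e β, rfl⟩

/-- The Hodge conjecture for the product and for the factor. -/
theorem Repro.hodge_iff (h : Repro per V) {alg : Submodule ℚ (Fin v → ℚ)} {algX : Submodule ℚ (HAZ W v)}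
    (hbox : ∀ k, ∀ f ∈ divisorSpan per k, ∀ x ∈ alg, cross f x ∈ algX)
    (hfib : ∀ F ∈ algX, F 0 (fun l => l.elim0) ∈ alg) :
    (∀ F, IsHodgeOnProduct per V F → F ∈ algX) ↔ ∀ x, IsHodgeOn V x → x ∈ alg := by
  refine ⟨fun hX x hx => ?_, fun hD F hF => ?_⟩
  · have h1 := hfib _ (hX _ (hodge_one (per := per) hx))
    rwa [cross_oneF] at h1
  · refine (Submodule.span_le (p := algX)).2 ?_ (h.mem_cross hF)
    rintro _ ⟨k, f, x, hf, hx, rfl⟩
    exact hbox k f hf x (hD x hx)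

/-- `divisorSpan ⊗ M` -/
def Ten (per : W →+ T) (M : Set (Fin v → ℚ)) : Submodule ℚ (HAZ W v) :=
  Submodule.span ℚ {G | ∃ (k : ℕ) (f : W [⋀^Fin k]→ₗ[ℚ] ℚ) (x : Fin v → ℚ), f ∈ divisorSpan per k ∧ x ∈ M ∧ G = cross f x}

theorem cross_k {k k' : ℕ} (hk : k' ≠ k) (f : W [⋀^Fin k]→ₗ[ℚ] ℚ) (x : Fin v → ℚ) : cross f x k' = 0 := by
  unfold cross
  rw [Pi.single_eq_of_ne hk]

/-- The integral of a product is a multiple of the class on the factor. -/
theorem fibreIntegral_cross {k k' j : ℕ} (e : Basis (Fin k' ⊕ Fin j) ℚ W) (f : W [⋀^Fin k]→ₗ[ℚ] ℚ) (x : Fin v → ℚ)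
    (β : W [⋀^Fin j]→ₗ[ℚ] ℚ) : ∃ c : ℚ, fibreIntegral e (cross f x) β = c • x := by
  by_cases hk : k' = k
  · subst hk
    refine ⟨∑ σ : Equiv.Perm (Fin k' ⊕ Fin j), ((Equiv.Perm.sign σ : ℤ) : ℚ) *
      (β (fun l => e (σ (Sum.inr l))) * f (fun l => e (σ (Sum.inl l)))), ?_⟩
    unfold fibreIntegral
    rw [Finset.sum_smul]
    refine Finset.sum_congr rfl fun σ _ => ?_
    have h1 : cross f x k' (fun l => e (σ (Sum.inl l))) = f (fun l => e (σ (Sum.inl l))) • x := by
      unfold cross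
      rw [Pi.single_eq_same]
      rfl
    rw [h1, mul_smul, mul_smul, ← Int.cast_smul_eq_zsmul ℚ]
  · refine ⟨0, ?_⟩
    unfold fibreIntegral
    rw [cross_k hk, zero_smul]
    refine Finset.sum_eq_zero fun σ _ => ?_
    simp

/-- `χ` is the Euler form of the product. -/
def IsEuler (per : W →+ T) (B : (Fin v → ℚ) →ₗ[ℚ] (Fin v → ℚ) →ₗ[ℚ] ℚ)
    (χ : HAZ W v →ₗ[ℚ] HAZ W v →ₗ[ℚ] ℚ) : Prop :=
  ∀ (k j : ℕ) (e : Basis (Fin k ⊕ Fin j) ℚ W), ∃ c : ℚ, c ≠ 0 ∧
    ∀ F : HAZ W v, ∀ β ∈ divisorSpan per j, ∀ y : Fin v → ℚ, χ F (cross β y) = c * B (fibreIntegral e F β) y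

/-- **The structure of the classes of objects and of the numerically trivial classes on the product.** -/
theorem Repro.objects [Module.Finite ℚ W] (h : Repro per V) {alg : Submodule ℚ (Fin v → ℚ)}
    {algX : Submodule ℚ (HAZ W v)}
    (hodge : ∀ F ∈ algX, IsHodgeOnProduct per V F)
    (hbox : ∀ k, ∀ f ∈ divisorSpan per k, ∀ x ∈ alg, cross f x ∈ algX)
    (hint : ∀ F ∈ algX, ∀ (k j : ℕ) (e : Basis (Fin k ⊕ Fin j) ℚ W), ∀ β ∈ divisorSpan per j, fibreIntegral e F β ∈ alg)
    (B : (Fin v → ℚ) →ₗ[ℚ] (Fin v → ℚ) →ₗ[ℚ] ℚ) (χ : HAZ W v →ₗ[ℚ] HAZ W v →ₗ[ℚ] ℚ) (hχ : IsEuler per B χ) :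
    algX = Ten per (alg : Set (Fin v → ℚ)) ∧
    (∀ F, (F ∈ algX ∧ ∀ F' ∈ algX, χ F F' = 0) ↔ F ∈ Ten per {x | x ∈ alg ∧ ∀ y ∈ alg, B x y = 0}) := by
  have h1 : algX = Ten per (alg : Set (Fin v → ℚ)) := by
    refine le_antisymm (fun F hF => ?_) (Submodule.span_le.2 ?_)
    · exact h.mem F (hodge F hF) _ fun k j e f hf β hβ =>
        Submodule.subset_span ⟨k, f, _, hf, hint F hF k j e β hβ, rfl⟩
    · rintro _ ⟨k, f, x, hf, hx, rfl⟩
      exact hbox k f hf x hx
  refine ⟨h1, fun F => ⟨fun hF => ?_, fun hF => ?_⟩⟩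
  · obtain ⟨hF, hz⟩ := hF
    refine h.mem F (hodge F hF) _ fun k j e f hf β hβ => ?_
    refine Submodule.subset_span ⟨k, f, _, hf, ⟨hint F hF k j e β hβ, fun y hy => ?_⟩, rfl⟩
    obtain ⟨c, hc, h2⟩ := hχ k j e
    have h3 := h2 F β hβ y
    rw [hz _ (hbox j β hβ y hy)] at h3
    exact (mul_eq_zero.1 h3.symm).resolve_left hc
  · have h2 : F ∈ algX := by
      rw [h1]
      refine Submodule.span_mono ?_ hF
      rintro _ ⟨k, f, x, hf, hx, rfl⟩
      exact ⟨k, f, x, hf, hx.1, rfl⟩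
    refine ⟨h2, fun F' hF' => ?_⟩
    -- bilinearity
    rw [h1] at hF'
    have h3 : F' ∈ LinearMap.ker (χ F) := by
      refine (Submodule.span_le (p := LinearMap.ker (χ F))).2 ?_ hF'
      rintro _ ⟨j, β, y, hβ, hy, rfl⟩
      rw [SetLike.mem_coe, LinearMap.mem_ker]
      have h4 : F ∈ LinearMap.ker (χ.flip (cross β y)) := by
        refine (Submodule.span_le (p := LinearMap.ker (χ.flip (cross β y)))).2 ?_ hF
        rintro _ ⟨k, f, x, hf, hx, rfl⟩
        rw [SetLike.mem_coe, LinearMap.mem_ker, LinearMap.flip_apply]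
        by_cases hj : j ≤ finrank ℚ W
        · obtain ⟨k', hk'⟩ := Nat.exists_eq_add_of_le' hj
          have hcard : Fintype.card (Fin (finrank ℚ W)) = Fintype.card (Fin k' ⊕ Fin j) := by
            rw [Fintype.card_sum, Fintype.card_fin, Fintype.card_fin, Fintype.card_fin, hk']
          obtain ⟨c, -, h5⟩ := hχ k' j ((Module.finBasis ℚ W).reindex (Fintype.equivOfCardEq hcard))
          rw [h5 _ β hβ y]
          obtain ⟨c', h6⟩ := fibreIntegral_cross
            ((Module.finBasis ℚ W).reindex (Fintype.equivOfCardEq hcard)) f x β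
          rw [h6, map_smul, LinearMap.smul_apply, hx.2 y hy, smul_zero, mul_zero]
        · have h5 : β = 0 := by
            refine AlternatingMap.ext fun w => ?_
            refine β.map_linearDependent w fun hw => ?_
            have h6 := hw.fintype_card_le_finrank
            rw [Fintype.card_fin] at h6
            omega
          have h6 : cross β y = (0 : HAZ W v) := by
            rw [h5]
            unfold cross
            have h7 : (LinearMap.toSpanSingleton ℚ (Fin v → ℚ) y).compAlternatingMap (0 : W [⋀^Fin j]→ₗ[ℚ] ℚ) = 0 := by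
              refine AlternatingMap.ext fun w => ?_
              simp
            rw [h7, Pi.single_zero]
          rw [h6, map_zero]
      exact h4
    exact h3

/-- **The noncommutative standard conjecture D.** -/
theorem Repro.homNum [Module.Finite ℚ W] (h : Repro per V) {alg : Submodule ℚ (Fin v → ℚ)}
    {algX : Submodule ℚ (HAZ W v)}
    (hodge : ∀ F ∈ algX, IsHodgeOnProduct per V F)
    (hbox : ∀ k, ∀ f ∈ divisorSpan per k, ∀ x ∈ alg, cross f x ∈ algX)
    (hint : ∀ F ∈ algX, ∀ (k j : ℕ) (e : Basis (Fin k ⊕ Fin j) ℚ W), ∀ β ∈ divisorSpan per j, fibreIntegral e F β ∈ alg)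
    (B : (Fin v → ℚ) →ₗ[ℚ] (Fin v → ℚ) →ₗ[ℚ] ℚ) (χ : HAZ W v →ₗ[ℚ] HAZ W v →ₗ[ℚ] ℚ) (hχ : IsEuler per B χ) :
    (∀ F, (F ∈ algX ∧ ∀ F' ∈ algX, χ F F' = 0) → F = 0) ↔ ∀ x, (x ∈ alg ∧ ∀ y ∈ alg, B x y = 0) → x = 0 := by
  obtain ⟨-, h2⟩ := h.objects hodge hbox hint B χ hχ
  refine ⟨fun hX x hx => ?_, fun hD F hF => ?_⟩
  · have h3 := hX _ ((h2 (cross (oneF W) x)).2 (Submodule.subset_span ⟨0, oneF W, x, oneF_mem, hx, rfl⟩))
    have h4 := cross_oneF (W := W) x
    rw [h3] at h4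
    exact h4.symm
  · have h3 := (h2 F).1 hF
    have h4 : Ten per {x : Fin v → ℚ | x ∈ alg ∧ ∀ y ∈ alg, B x y = 0} ≤ ⊥ := by
      refine Submodule.span_le.2 ?_
      rintro _ ⟨k, f, x, hf, hx, rfl⟩
      rw [hD x hx, cross_zero]
      exact Submodule.zero_mem _
    exact (Submodule.mem_bot ℚ).1 (h4 h3)

end general

end

end Pool.Agent.T6.H21.MP
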