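import Pool.Agent.T6.H21.MP.Gen

/-!
# The reproducing property for abelian varieties with many independent periods

Helper file.
-/

set_option autoImplicit false
set_option linter.unusedSectionVars false

namespace Pool.Agent.T6.H21.MP

open Matrix Module Pool.Agent.H204R3.CM Pool.Agent.W437.HC Pool.Agent.W437.HD Pool.Agent.W437.HP
  Pool.Agent.W437.HQ Pool.Agent.W437.HR Pool.Agent.TH131.GHC Pool.Agent.TH504.VY
  Pool.Agent.TH504.VL Pool.Agent.TH504.CB Pool.Agent.TH125 Pool.Agent.Y91.PS Pool.Agent.X311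

noncomputable section

/-- Products of simple abelian varieties with symplectic Lie algebras are free. -/
theorem free_of {ι : Type} {g : ι → ℕ} {Y : ∀ i, Matrix (Fin (g i)) (Fin (g i)) ℂ} (hY : ∀ i, (Y i)ᵀ = Y i)
    (hpos : ∀ i, (imM (Y i)).PosDef) (hs : ∀ i, IsSimpleAV (Y i)) (hp : ∀ i, HasPcs (DZ (Y i))) {v : ℕ} (V : Coh v)
    (hV : IsOfCMType V ∨ ∀ i, ∃ δ : Derivation ℚ ℂ ℂ, Raises V δ ∧ (Y i).map δ ≠ 0) {N : ℕ} (c : Fin N → ι) :
    IsFree (fun j => Y (c j)) V where
  symm j := hY _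
  pos j := hpos _
  pcs j := hp _
  ind := by
    rcases hV with hV | hV
    · exact (polOf (bigD_symm fun j => hY (c j)) (imM_bigD_posDef (fun j => Y (c j)) fun j => hpos _)).indep_cm
        (simp_prod (fun j => Y (c j)) (fun j => hY _) (fun j => hpos _) (fun j => hp _)) hV
    · exact indep_of_raises (Z := fun j => Y (c j)) (fun j => hY _) (fun j => hpos _) (fun j => hp _)
        (fun j => hs _) V fun j => hV _

variable {G : ℕ} {Z : Matrix (Fin G) (Fin G) ℂ} {ι : Type} [Fintype ι] [DecidableEq ι]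
    {g : ι → ℕ} {Y : ∀ i, Matrix (Fin (g i)) (Fin (g i)) ℂ}
    {E : ∀ i, Matrix (Fin G ⊕ Fin G) (Fin (g i) ⊕ Fin (g i)) ℚ}
    {F : ∀ i, Matrix (Fin (g i) ⊕ Fin (g i)) (Fin G ⊕ Fin G) ℚ}

theorem repro_dec (d : Dec Z Y E F) (hp : ∀ i, HasPcs (DZ (Y i))) {v : ℕ} (V : Coh v)
    (hV : IsOfCMType V ∨ ∀ i, ∃ δ : Derivation ℚ ℂ ℂ, Raises V δ ∧ (Y i).map δ ≠ 0) (n : ℕ) :
    Repro (perPow Z n) V := by
  classical
  obtain ⟨e⟩ : Nonempty (Fin (Fintype.card (Fin n × ι)) ≃ Fin n × ι) :=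
    ⟨(Fintype.equivFin _).symm⟩
  have h1 : Repro (perProd fun j => Y (e j).2) V :=
    repro_of_free (free_of d.symmY d.posY d.simple hp V hV fun j => (e j).2)
  exact repro_iso (LinearEquiv.ofLinear (mPsi F e) (mPhi E e) (LinearMap.ext fun w => d.psi_phi e w)
    (LinearMap.ext fun w => d.phi_psi e w)) (tPsi Y F e) (d.per_psi e) (tPhi Z E e) (d.per_phi e) h1

/-- **The reproducing property for abelian varieties with many independent periods.** -/
theorem repro_periods {g : ℕ} (Z : Matrix (Fin g) (Fin g) ℂ) (hZ : Zᵀ = Z) (hpos : (imM Z).PosDef)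
    (K : Subfield ℂ) {D : ℕ} (p : Fin D → Fin g × Fin g)
    (hp : AlgebraicIndependent K fun s => Z (p s).1 (p s).2) :
    ∃ (b r : ℕ) (Z₁ : Matrix (Fin b) (Fin b) ℂ) (Z₂ : Matrix (Fin r) (Fin r) ℂ),
      IsPeriodMatrix Z₁ ∧ IsPeriodMatrix Z₂ ∧ IsIsogenousToProduct Z Z₁ Z₂ ∧ b + r = g ∧
      SmallQuotient g D r ∧
      (∀ (v : ℕ) (V : Coh v), IsOfCMType V ∨ HasFiltrationOver (periodField K Z₂) V →
        ∀ n, Repro (perPow Z₁ n) V) ∧
      (r = 0 → ∀ (v : ℕ) (V : Coh v), IsOfCMType V ∨ HasFiltrationOver K V →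
        ∀ n, Repro (perPow Z n) V) := by
  classical
  obtain ⟨ι, hι, hι', d, Y, E, F, h1, h2, h3, h4, h5, h6, h7, h8⟩ := decomposes g g Z le_rfl hZ hpos
  have hd : Dec Z Y E F := ⟨hZ, hpos, h1, h2, h3, h4, h5, h6, h7, h8⟩
  choose δ hδK hδ using fun s : Fin D => exists_derivationK hp (fun t => if t = s then (1 : ℂ) else 0)
  have hinj : Function.Injective (LinearMap.pi fun i => derL Y δ i) := by
    rw [← LinearMap.ker_eq_bot, LinearMap.ker_eq_bot']
    intro c hc
    have h9 : ∀ i, (Y i).map (comb δ c) = 0 := by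
      intro i
      rw [map_comb]
      exact congrFun hc i
    have h10 := map_der_eq_zero hd.unit hd.unitY hd.tot (fun i => (hd.EJ i).symm) hd.FJ _ h9
    funext t
    have h11 := congrFun (congrFun h10 (p t).1) (p t).2
    rw [Matrix.map_apply, comb_apply, Finset.sum_eq_single t] at h11
    · rw [hδ t t, if_pos rfl, mul_one] at h11
      exact h11
    · intro s _ hs
      rw [hδ s t, if_neg (Ne.symm hs), mul_zero]
    · intro h
      exact absurd (Finset.mem_univ _) h
  obtain ⟨R, hR1, hR4⟩ := main_der' h1 h2 h3 δ hinj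
  have hcombK : ∀ (u : Fin D → ℂ), ∀ x ∈ K, comb δ u x = 0 := by
    intro u x hx
    rw [comb_apply]
    refine Finset.sum_eq_zero fun s _ => ?_
    have h9 : δ s x = 0 := hδK s ⟨x, hx⟩
    rw [h9, mul_zero]
  have hr : NB (fun i : {i // i ∈ R} => d i.1) = ∑ i ∈ R, d i := by
    unfold NB
    rw [Fintype.card_sigma]
    simp only [Fintype.card_fin]
    exact Finset.sum_coe_sort R d
  have hb : NB (fun i : {i // i ∉ R} => d i.1) + NB (fun i : {i // i ∈ R} => d i.1) = g := by
    have h9 : NB (fun i : {i // i ∉ R} => d i.1) = ∑ i ∈ Rᶜ, d i := by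
      unfold NB
      rw [Fintype.card_sigma]
      simp only [Fintype.card_fin]
      exact (Finset.sum_subtype Rᶜ (by simp) d).symm
    rw [h9, hr, Finset.sum_compl_add_sum, hd.sum_g]
  refine ⟨NB (fun i : {i // i ∉ R} => d i.1), NB (fun i : {i // i ∈ R} => d i.1),
    bigD ℂ (fun i : {i // i ∉ R} => Y i.1), bigD ℂ (fun i : {i // i ∈ R} => Y i.1),
    ⟨bigD_symm fun i => h1 i.1, imM_bigD_posDef _ fun i => h2 i.1⟩,
    ⟨bigD_symm fun i => h1 i.1, imM_bigD_posDef _ fun i => h2 i.1⟩, hd.isogenous R, hb, ?_, ?_, ?_⟩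
  · intro ρ ha hb'
    rw [hr]
    have h9 := hR1 ρ
    rw [hd.sum_g, Fintype.card_fin] at h9
    exact h9 ha hb'
  · intro v V hV
    refine repro_dec (dec_big (Y := fun i : {i // i ∉ R} => Y i.1) (fun i => h1 i.1) (fun i => h2 i.1)
      (fun i => h3 i.1) (fun i => h8 i.1)) (fun i => (hR4 i.1 i.2).1) V
      (hV.imp_right fun hV i => ?_)
    obtain ⟨-, u, hu0, hu⟩ := hR4 i.1 i.2
    refine ⟨comb δ u, raises_of_filtration hV _ (der_periodField _ (hcombK u) ?_), ?_⟩
    · rw [deriv_big]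
      have h9 : (fun i : {i // i ∈ R} => (Y i.1).map (comb δ u)) = fun _ => 0 := by
        funext j
        rw [map_comb]
        exact hu0 j.1 j.2
      rw [h9]
      unfold bigD
      simp
    · rw [map_comb]
      exact hu
  · intro hr0 v V hV
    have hR : R = ∅ := by
      rw [Finset.eq_empty_iff_forall_notMem]
      intro i hi
      have h9 := (Finset.sum_eq_zero_iff.1 (hr.symm.trans hr0)) i hi
      have h10 := h8 i
      omega
    subst hR
    refine repro_dec hd (fun i => (hR4 i (Finset.notMem_empty i)).1) V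
      (hV.imp_right fun hV i => ?_)
    obtain ⟨-, u, -, hu⟩ := hR4 i (Finset.notMem_empty i)
    exact ⟨comb δ u, raises_of_filtration hV _ (hcombK u), by rw [map_comb]; exact hu⟩

theorem zero_of_small {g D r : ℕ} (h : SmallQuotient g D r) (hD : g * (g - 1) < 2 * D) : r = 0 := by
  have h8 : r ≤ 0 := by
    refine h 0 ?_ ?_
    · rcases Nat.eq_zero_or_pos g with rfl | hg
      · simp at hD ⊢
        omega
      · obtain ⟨a, rfl⟩ : ∃ a, g = a + 1 := ⟨g - 1, by omega⟩
        rw [Nat.add_sub_cancel] at hD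
        nlinarith
    · rcases Nat.eq_zero_or_pos g with rfl | hg
      · simp at hD ⊢
        omega
      · obtain ⟨a, rfl⟩ : ∃ a, g = a + 1 := ⟨g - 1, by omega⟩
        rw [Nat.add_sub_cancel] at hD
        rw [show a + 1 - 0 - 1 = a by omega, show a + 1 - 0 = a + 1 by omega]
        nlinarith
  omega

end

end Pool.Agent.T6.H21.MP
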